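import Pool.Agent.H31R3.Boards

set_option autoImplicit false

/-! Multiboard Gale-Stewart games with an arbitrary set `M` of moves. -/

namespace Pool.Agent.Y750.MB

open Cardinal Set

/-- ONE has a winning strategy in the game with set `M` of moves and payoff set `S` played on the set
`K` of boards. -/
def OneWins (K M : Type) (S : Set (ℕ → M)) : Prop :=
  ∃ σ : List (K → M) → (K → M), ∀ f : ℕ → K → M,
    (∀ n : ℕ, f (2 * n) = σ (List.ofFn (fun i : Fin (2 * n) => f i))) →
      ∃ α : K, (fun n : ℕ => f n α) ∈ S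

/-- TWO has a winning strategy. -/
def TwoWins (K M : Type) (S : Set (ℕ → M)) : Prop :=
  ∃ τ : List (K → M) → (K → M), ∀ f : ℕ → K → M,
    (∀ n : ℕ, f (2 * n + 1) = τ (List.ofFn (fun i : Fin (2 * n + 1) => f i))) →
      ∀ α : K, (fun n : ℕ => f n α) ∉ S

/-- ONE can win on as many boards as there are. -/
def OneWinsOnAsManyBoards (K M : Type) (S : Set (ℕ → M)) : Prop :=
  ∃ σ : List (K → M) → (K → M), ∀ f : ℕ → K → M,
    (∀ n : ℕ, f (2 * n) = σ (List.ofFn (fun i : Fin (2 * n) => f i))) →
      #{α : K | (fun n : ℕ => f n α) ∈ S} = #K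

/-! ### Pairing the boards -/

/-- Every set has an involution with countably many fixed points, and a labelling by two labels
that separates the points of each orbit with two points. -/
theorem exists_involution (C : Type) : ∃ (j : C → C) (ρ : C → Bool), (∀ a, j (j a) = a) ∧
    {a | j a = a}.Countable ∧ ∀ a, j a ≠ a → ρ (j a) = !ρ a := by
  classical
  rcases finite_or_infinite C with h | h
  · exact ⟨id, fun _ => true, fun _ => rfl, Set.to_countable _, fun a ha => absurd rfl ha⟩
  · have hc : #(C × Bool) = #C := by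
      rw [Cardinal.mk_prod, Cardinal.lift_id, Cardinal.lift_id, Cardinal.mk_bool]
      exact Cardinal.mul_eq_left (aleph0_le_mk C)
        ((Cardinal.natCast_lt_aleph0 (n := 2)).le.trans (aleph0_le_mk C)) (by norm_num)
    obtain ⟨e⟩ := Cardinal.eq.1 hc
    refine ⟨fun a => e ((e.symm a).1, !(e.symm a).2), fun a => (e.symm a).2, ?_, ?_, ?_⟩
    · intro a
      simp
    · have : {a : C | e ((e.symm a).1, !(e.symm a).2) = a} = ∅ := by
        ext a
        simp only [mem_ofPred_eq, mem_empty_iff_false, iff_false]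
        intro ha
        have h2 := congrArg (fun x => (e.symm x).2) ha
        simp at h2
      rw [this]
      exact countable_empty
    · intro a _
      simp

/-- The boards are paired within the classes of a function with values in `ℕ`. -/
theorem exists_pairing {K : Type} (g : K → ℕ) : ∃ (ι : K → K) (ρ : K → Bool),
    (∀ a, ι (ι a) = a) ∧ (∀ a, g (ι a) = g a) ∧ {a | ι a = a}.Countable ∧
    ∀ a, ι a ≠ a → ρ (ι a) = !ρ a := by
  classical
  choose j r h1 h2 h3 using fun n : ℕ => exists_involution {a : K // g a = n}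
  let ι : K → K := fun a => (j (g a) ⟨a, rfl⟩).1
  let ρ : K → Bool := fun a => r (g a) ⟨a, rfl⟩
  have hι : ∀ (n : ℕ) (x : {a : K // g a = n}), ι x.1 = (j n x).1 := by
    rintro n ⟨a, rfl⟩; rfl
  have hρ : ∀ (n : ℕ) (x : {a : K // g a = n}), ρ x.1 = r n x := by
    rintro n ⟨a, rfl⟩; rfl
  refine ⟨ι, ρ, ?_, ?_, ?_, ?_⟩
  · intro a
    have := hι (g a) (j (g a) ⟨a, rfl⟩)
    rw [h1] at this
    exact this
  · intro a
    exact (j (g a) ⟨a, rfl⟩).2
  · have hsub : {a | ι a = a} ⊆ ⋃ n : ℕ, Subtype.val '' {x : {a : K // g a = n} | j n x = x} := by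
      intro a ha
      refine mem_iUnion.2 ⟨g a, ⟨a, rfl⟩, ?_, rfl⟩
      exact Subtype.ext ha
    exact (countable_iUnion fun n => (h2 n).image _).mono hsub
  · intro a ha
    have hne : j (g a) ⟨a, rfl⟩ ≠ ⟨a, rfl⟩ := fun h => ha (congrArg Subtype.val h)
    have := hρ (g a) (j (g a) ⟨a, rfl⟩)
    rw [h3 _ _ hne] at this
    exact this

/-! ### The payoff sets -/

/-- The label of a board is `n` : TWO's first move with bit `1` is the move number `2 n + 1`. -/
def Lab (w : ℕ → Bool) (n : ℕ) : Prop :=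
  w (2 * n + 1) = true ∧ ∀ k < n, w (2 * k + 1) = false

theorem Lab.unique {w : ℕ → Bool} {n m : ℕ} (h : Lab w n) (h' : Lab w m) : n = m := by
  rcases lt_trichotomy n m with hlt | rfl | hlt
  · have := h'.2 n hlt
    rw [h.1] at this; exact absurd this (by simp)
  · rfl
  · have := h.2 m hlt
    rw [h'.1] at this; exact absurd this (by simp)

theorem lab_congr {w w' : ℕ → Bool} {n : ℕ} (h : ∀ k ≤ n, w (2 * k + 1) = w' (2 * k + 1)) :
    Lab w n ↔ Lab w' n := by
  unfold Lab
  rw [h n le_rfl]
  refine and_congr_right fun _ => forall₂_congr fun k hk => ?_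
  rw [h k hk.le]

/-- the payoff set for sequences of bits -/
def Pay (T : ℕ → (ℕ → Bool) → (ℕ → Bool) → Prop) : Set (ℕ → Bool) :=
  {w | (∀ n, ¬ Lab w n) ∨ ∃ n, Lab w n ∧
    ((w (2 * n + 2) = false ∧ T n (fun i => w (2 * (n + i) + 4)) (fun i => w (2 * (n + i) + 3))) ∨
    (w (2 * n + 2) = true ∧ ¬ T n (fun i => w (2 * (n + i) + 3)) (fun i => w (2 * (n + i) + 4))))}

/-- the payoff set for sequences of moves with a bit `b m` assigned to the move `m` -/
def PayM {M : Type} (b : M → Bool) (T : ℕ → (ℕ → Bool) → (ℕ → Bool) → Prop) : Set (ℕ → M) :=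
  {z | (fun n => b (z n)) ∈ Pay T}

/-- copycat -/
theorem pay_or {T : ℕ → (ℕ → Bool) → (ℕ → Bool) → Prop} {z w : ℕ → Bool} {n : ℕ} (h1 : Lab z n)
    (h1' : Lab w n) (hz : z (2 * n + 2) = false) (hw : w (2 * n + 2) = true)
    (h3 : ∀ i, z (2 * (n + i) + 4) = w (2 * (n + i) + 3))
    (h4 : ∀ i, w (2 * (n + i) + 4) = z (2 * (n + i) + 3)) : z ∈ Pay T ∨ w ∈ Pay T := by
  have e1 : (fun i => z (2 * (n + i) + 4)) = fun i => w (2 * (n + i) + 3) := funext h3
  have e2 : (fun i => w (2 * (n + i) + 4)) = fun i => z (2 * (n + i) + 3) := funext h4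
  by_cases h : T n (fun i => z (2 * (n + i) + 4)) (fun i => z (2 * (n + i) + 3))
  · left; right; exact ⟨n, h1, Or.inl ⟨hz, h⟩⟩
  · right; right
    refine ⟨n, h1', Or.inr ⟨hw, ?_⟩⟩
    rw [e2, ← e1]; exact h

/-! ### ONE wins on uncountable sets of boards -/

section one

variable {K M : Type}

theorem getD_ofFn' {X : Type} (f : ℕ → X) (n : ℕ) (d : X) :
    (fun i => (List.ofFn (fun i : Fin n => f i)).getD i d) = fun i => if i < n then f i else d := by
  funext i
  by_cases h : i < n
  · rw [if_pos h, Pool.Agent.H31R3.Boards.getD_ofFn f n i d h]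
  · rw [if_neg h, List.getD_eq_default]
    rw [List.length_ofFn]; omega

theorem oneWinsOnAsManyBoards (b : M → Bool) (t u : M) (ht : b t = true) (hu : b u = false)
    (T : ℕ → (ℕ → Bool) → (ℕ → Bool) → Prop) (hK : Uncountable K) :
    OneWinsOnAsManyBoards K M (PayM b T) := by
  classical
  choose ι ρ hι hg hfix hρ using fun g : K → ℕ => exists_pairing g
  -- the class of the boards with label `n`
  let g : (ℕ → K → M) → ℕ → K → ℕ := fun F n γ => if Lab (fun i => b (F i γ)) n then 0 else 1
  -- ONE's move number `2 m`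
  let mv : (ℕ → K → M) → ℕ → K → M := fun F m γ =>
    if h : ∃ n, n < m ∧ Lab (fun i => b (F i γ)) n then
      if m = h.choose + 1 then (if ρ (g F h.choose) γ then t else u)
      else F (2 * m - 1) (ι (g F h.choose) γ)
    else u
  let σ : List (K → M) → (K → M) := fun l => mv (fun i => l.getD i (fun _ => u)) (l.length / 2)
  refine ⟨σ, fun f hf => ?_⟩
  have hf' : ∀ m, f (2 * m) = mv (fun i => if i < 2 * m then f i else fun _ => u) m := by
    intro m
    rw [hf m]
    simp only [σ, List.length_ofFn]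
    rw [getD_ofFn' f (2 * m) (fun _ => u), Nat.mul_div_cancel_left m (by norm_num)]
  have hlab : ∀ m n γ, n < m → (Lab (fun i => b ((fun i => if i < 2 * m then f i
      else fun _ => u) i γ)) n ↔ Lab (fun i => b (f i γ)) n) := by
    intro m n γ hnm
    refine lab_congr fun k hk => ?_
    simp only
    rw [if_pos (by omega)]
  have hgt : ∀ m n, n < m → g (fun i => if i < 2 * m then f i else fun _ => u) n = g f n := by
    intro m n hnm
    funext γ
    simp only [g]
    have := hlab m n γ hnm
    by_cases h : Lab (fun i => b (f i γ)) n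
    · rw [if_pos h, if_pos (this.2 h)]
    · rw [if_neg h, if_neg (fun h' => h (this.1 h'))]
  have hmv : ∀ m n γ, n < m → Lab (fun i => b (f i γ)) n →
      f (2 * m) γ = if m = n + 1 then (if ρ (g f n) γ then t else u)
        else f (2 * m - 1) (ι (g f n) γ) := by
    intro m n γ hnm hL
    rw [hf' m]
    have hex : ∃ n, n < m ∧ Lab (fun i => b ((fun i => if i < 2 * m then f i
        else fun _ => u) i γ)) n := ⟨n, hnm, (hlab m n γ hnm).2 hL⟩
    have hch : hex.choose = n :=
      Lab.unique ((hlab m _ γ hex.choose_spec.1).1 hex.choose_spec.2) hL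
    simp only [mv]
    rw [dif_pos hex, hch, hgt m n hnm, if_pos (show 2 * m - 1 < 2 * m by omega)]
  have h2 : ∀ n γ, Lab (fun i => b (f i γ)) n →
      f (2 * n + 2) γ = if ρ (g f n) γ then t else u := by
    intro n γ hL
    have := hmv (n + 1) n γ (by omega) hL
    rw [if_pos rfl] at this
    rw [← this]
    rfl
  have h4 : ∀ n i γ, Lab (fun i => b (f i γ)) n →
      f (2 * (n + i) + 4) γ = f (2 * (n + i) + 3) (ι (g f n) γ) := by
    intro n i γ hL
    have := hmv (n + i + 2) n γ (by omega) hL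
    rw [if_neg (by omega)] at this
    rw [show 2 * (n + i) + 4 = 2 * (n + i + 2) by ring, this]
    rfl
  set W : Set K := {α : K | (fun n : ℕ => f n α) ∈ PayM b T} with hW
  have hlabι : ∀ n γ, Lab (fun i => b (f i γ)) n → Lab (fun i => b (f i (ι (g f n) γ))) n := by
    intro n γ hL
    have h := hg (g f n) γ
    by_contra hcon
    simp only [g] at h hcon
    rw [if_pos hL, if_neg hcon] at h
    exact one_ne_zero h
  have key : ∀ n a, Lab (fun i => b (f i a)) n → ι (g f n) a ≠ a → ρ (g f n) a = false →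
      a ∈ W ∨ ι (g f n) a ∈ W := by
    intro n a hL ha hr
    have hr' : ρ (g f n) (ι (g f n) a) = true := by rw [hρ _ _ ha, hr]; rfl
    have hL' := hlabι n a hL
    refine pay_or (T := T) (z := fun n => b (f n a)) (w := fun m => b (f m (ι (g f n) a))) hL hL'
      ?_ ?_ (fun i => ?_) (fun i => ?_)
    · simp only [h2 n a hL, hr]; simpa using hu
    · simp only [h2 n _ hL', hr']; simpa using ht
    · simp only [h4 n i a hL]
    · simp only [h4 n i _ hL', hι]
  have key2 : ∀ n a, Lab (fun i => b (f i a)) n → ι (g f n) a ≠ a →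
      a ∈ W ∨ ι (g f n) a ∈ W := by
    intro n a hL ha
    rcases hr : ρ (g f n) a with _ | _
    · exact key n a hL ha hr
    · have ha' : ι (g f n) (ι (g f n) a) ≠ ι (g f n) a := by rw [hι]; exact ha.symm
      have hr' : ρ (g f n) (ι (g f n) a) = false := by rw [hρ _ _ ha, hr]; rfl
      have := key n (ι (g f n) a) (hlabι n a hL) ha' hr'
      rw [hι] at this
      exact this.symm
  have hcov : (univ : Set K) ⊆ (⋃ n, {a | ι (g f n) a = a}) ∪ (W ∪ ⋃ n, ι (g f n) '' W) := by
    intro a _
    by_cases hex : ∃ n, Lab (fun i => b (f i a)) n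
    · obtain ⟨n, hL⟩ := hex
      by_cases ha : ι (g f n) a = a
      · exact Or.inl (mem_iUnion.2 ⟨n, ha⟩)
      · rcases key2 n a hL ha with h | h
        · exact Or.inr (Or.inl h)
        · exact Or.inr (Or.inr (mem_iUnion.2 ⟨n, _, h, hι _ a⟩))
    · push Not at hex
      exact Or.inr (Or.inl (Or.inl hex))
  refine le_antisymm (mk_set_le W) ?_
  by_contra hlt
  rw [not_le] at hlt
  have hinf : ℵ₀ < #K := Cardinal.aleph0_lt_mk_iff.2 hK
  have h5 : #K ≤ #(⋃ n, {a | ι (g f n) a = a}) + (#W + #(⋃ n, ι (g f n) '' W)) := by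
    calc #K = #(univ : Set K) := mk_univ.symm
      _ ≤ _ := mk_le_mk_of_subset hcov
      _ ≤ _ := mk_union_le _ _
      _ ≤ _ := by gcongr; exact mk_union_le _ _
  have h6 : #(⋃ n, {a | ι (g f n) a = a}) < #K :=
    (countable_iUnion fun n => hfix (g f n)).le_aleph0.trans_lt hinf
  have h7 : #(⋃ n, ι (g f n) '' W) < #K := by
    have h8 : #(⋃ n, ι (g f n) '' W) ≤ ℵ₀ * #W := by
      refine (mk_iUnion_le_sum_mk).trans ?_
      refine (sum_le_sum _ (fun _ => #W) fun n => mk_image_le).trans ?_
      rw [sum_const']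
      simp
    exact h8.trans_lt (mul_lt_of_lt hinf.le hinf hlt)
  exact absurd h5 (not_le.2 (Cardinal.add_lt_of_lt hinf.le h6
    (Cardinal.add_lt_of_lt hinf.le hlt h7)))

end one

end Pool.Agent.Y750.MB
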