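import Pool.Agent.Y750.MB.Core

set_option autoImplicit false

/-! Multiboard Gale-Stewart games with an arbitrary set `M` of moves: neither player wins on
countably many boards. -/

namespace Pool.Agent.Y750.MB

open Cardinal Set
open Pool.Agent.H31R3.Boards (exists_seq getD_ofFn avoid)

theorem oneWins_mono {K K' M : Type} (u : M) (i : K → K') (hi : Function.Injective i)
    {S : Set (ℕ → M)} (h : OneWins K M S) : OneWins K' M S := by
  classical
  obtain ⟨σ, hσ⟩ := h
  refine ⟨fun l β => if h : ∃ α, i α = β then σ (l.map (fun g α => g (i α))) h.choose else u, ?_⟩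
  intro f hf
  obtain ⟨α, hα⟩ := hσ (fun n α => f n (i α)) (by
    intro n
    funext α
    have h2 : ∃ α', i α' = i α := ⟨α, rfl⟩
    have h3 : h2.choose = α := hi h2.choose_spec
    simp only [hf n, dif_pos h2, h3, List.map_ofFn]
    rfl)
  exact ⟨i α, hα⟩

theorem oneWins_of_asMany {K M : Type} [Nonempty K] {S : Set (ℕ → M)}
    (h : OneWinsOnAsManyBoards K M S) : OneWins K M S := by
  obtain ⟨σ, hσ⟩ := h
  refine ⟨σ, fun f hf => ?_⟩
  have h1 := hσ f hf
  have h2 : #{α : K | (fun n : ℕ => f n α) ∈ S} ≠ 0 := by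
    rw [h1]; exact Cardinal.mk_ne_zero K
  obtain ⟨⟨α, hα⟩⟩ := Cardinal.mk_ne_zero_iff.1 h2
  exact ⟨α, hα⟩

theorem not_twoWins {K M : Type} (b : M → Bool) (t u : M) (ht : b t = true) (hu : b u = false)
    (T : ℕ → (ℕ → Bool) → (ℕ → Bool) → Prop) (hK : Nonempty K) :
    ¬ TwoWins K M (PayM b T) := by
  classical
  rintro ⟨τ, hτ⟩
  obtain ⟨α⟩ := hK
  let mv : (ℕ → (K → M) × (K → M)) → ℕ → (K → M) × (K → M) := fun F m =>
    if h : ∃ n, n < m ∧ Lab (fun i => b ((F i).1 α)) n then
      if m = h.choose + 1 then (fun _ => u, fun _ => t)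
      else (fun _ => (F (2 * m - 1)).2 α, fun _ => (F (2 * m - 1)).1 α)
    else (fun _ => u, fun _ => u)
  let dd : (K → M) × (K → M) := (fun _ => u, fun _ => u)
  let step : List ((K → M) × (K → M)) → (K → M) × (K → M) := fun l =>
    if l.length % 2 = 1 then (τ (l.map Prod.fst), τ (l.map Prod.snd))
    else mv (fun i => l.getD i dd) (l.length / 2)
  obtain ⟨f, hf⟩ := exists_seq step
  have hodd : ∀ n, f (2 * n + 1) = (τ (List.ofFn (fun i : Fin (2 * n + 1) => (f i).1)),
      τ (List.ofFn (fun i : Fin (2 * n + 1) => (f i).2))) := by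
    intro n
    rw [hf (2 * n + 1)]
    have hlen : (List.ofFn (fun i : Fin (2 * n + 1) => f i)).length = 2 * n + 1 :=
      List.length_ofFn
    simp only [step, hlen]
    rw [if_pos (by omega), List.map_ofFn, List.map_ofFn]
    rfl
  have heven : ∀ m, f (2 * m) = mv (fun i => if i < 2 * m then f i else dd) m := by
    intro m
    rw [hf (2 * m)]
    have hlen : (List.ofFn (fun i : Fin (2 * m) => f i)).length = 2 * m := List.length_ofFn
    simp only [step, hlen]
    rw [if_neg (by omega), getD_ofFn' f (2 * m) dd, Nat.mul_div_cancel_left m (by norm_num)]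
  have hlab : ∀ m n, n < m → (Lab (fun i => b (((fun i => if i < 2 * m then f i
      else dd) i).1 α)) n ↔ Lab (fun i => b ((f i).1 α)) n) := by
    intro m n hnm
    refine lab_congr fun k hk => ?_
    simp only
    rw [if_pos (by omega)]
  have hA := hτ (fun n => (f n).1) (fun n => by simp only [hodd n]) α
  have hB := hτ (fun n => (f n).2) (fun n => by simp only [hodd n]) α
  by_cases hex : ∃ n, Lab (fun i => b ((f i).1 α)) n
  swap
  · push Not at hex
    exact hA (Or.inl hex)
  obtain ⟨n, hL⟩ := hex
  have hsame : ∀ m, m ≤ 2 * n + 1 → (f m).1 = (f m).2 := by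
    intro m
    induction m using Nat.strong_induction_on with
    | _ m ih =>
      intro hm
      rcases Nat.even_or_odd' m with ⟨k, rfl | rfl⟩
      · rw [heven k]
        have hno : ¬ ∃ n', n' < k ∧ Lab (fun i => b (((fun i => if i < 2 * k then f i
            else dd) i).1 α)) n' := by
          rintro ⟨n', hn', h'⟩
          have := Lab.unique ((hlab k n' hn').1 h') hL
          omega
        simp only [mv]
        rw [dif_neg hno]
      · have hfun : (fun i : Fin (2 * k + 1) => (f i).1) = fun i : Fin (2 * k + 1) => (f i).2 := by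
          funext i
          exact ih i i.2 (by have := i.2; omega)
        rw [hodd k, hfun]
  have hL' : Lab (fun i => b ((f i).2 α)) n := by
    refine (lab_congr fun k hk => ?_).1 hL
    rw [hsame (2 * k + 1) (by omega)]
  have hmv : ∀ m, n < m → f (2 * m) = if m = n + 1 then (fun _ => u, fun _ => t)
      else (fun _ => (f (2 * m - 1)).2 α, fun _ => (f (2 * m - 1)).1 α) := by
    intro m hnm
    rw [heven m]
    have hex : ∃ n, n < m ∧ Lab (fun i => b (((fun i => if i < 2 * m then f i
        else dd) i).1 α)) n := ⟨n, hnm, (hlab m n hnm).2 hL⟩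
    have hch : hex.choose = n :=
      Lab.unique ((hlab m _ hex.choose_spec.1).1 hex.choose_spec.2) hL
    simp only [mv]
    rw [dif_pos hex, hch, if_pos (show 2 * m - 1 < 2 * m by omega)]
  have h2 : f (2 * n + 2) = (fun _ => u, fun _ => t) := by
    have := hmv (n + 1) (by omega)
    rw [if_pos rfl] at this
    rw [← this]
    rfl
  have h4 : ∀ i, f (2 * (n + i) + 4)
      = (fun _ => (f (2 * (n + i) + 3)).2 α, fun _ => (f (2 * (n + i) + 3)).1 α) := by
    intro i
    have := hmv (n + i + 2) (by omega)
    rw [if_neg (by omega)] at this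
    rw [show 2 * (n + i) + 4 = 2 * (n + i + 2) by ring, this]
    rfl
  rcases pay_or (T := T) (z := fun n => b ((f n).1 α)) (w := fun n => b ((f n).2 α)) hL hL'
    (by simp only [h2]; exact hu) (by simp only [h2]; exact ht)
    (fun i => by simp only [h4]) (fun i => by simp only [h4]) with h | h
  · exact hA h
  · exact hB h

/-! ### The relation `T` -/

/-- restricted strategies of ONE -/
abbrev Dat : Type := ℕ → List Bool → Bool

def P (d : Dat) (j : ℕ) (y : ℕ → Bool) : ℕ → Bool :=
  fun i => d j (List.ofFn (fun k : Fin (j + i + 2) => y k))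

theorem mk_Dat : #Dat ≤ 𝔠 := by
  have h1 : #(List Bool → Bool) = 𝔠 := by simp
  have : #Dat = #(List Bool → Bool) ^ ℵ₀ := by simp [Dat]
  rw [this, h1, continuum_power_aleph0]

theorem exists_T : ∃ T : ℕ → (ℕ → Bool) → (ℕ → Bool) → Prop,
    ∀ (M : Type) (b : M → Bool) (t u : M), b t = true → b u = false →
      ¬ OneWins ℕ M (PayM b T) := by
  classical
  obtain ⟨Y, hY⟩ := avoid (D := Dat) (X := ℕ → Bool) mk_Dat (by simp)
    (fun d y => range (fun j => P d j y)) (fun d y => countable_range _)
  refine ⟨fun j x y => ∃ d : Dat, d j (List.ofFn (fun k : Fin (j + 1) => Y d k)) = true ∧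
    x = Y d ∧ y = P d j (Y d), ?_⟩
  rintro M b t u ht hu ⟨σ, hσ⟩
  let s : Bool → M := fun c => if c then t else u
  have hs : ∀ c, b (s c) = c := by
    intro c; rcases c with _ | _
    · simpa [s] using hu
    · simpa [s] using ht
  -- TWO's move number `2 m + 1`
  let tw : (ℕ → Bool) → ℕ → ℕ → M := fun y m j =>
    if m < j then u else if m = j then t else s (y (m - j - 1))
  let step : (ℕ → Bool) → List (ℕ → M) → (ℕ → M) := fun y l =>
    if l.length % 2 = 0 then σ l else tw y (l.length / 2)
  choose f hf using fun y => exists_seq (step y)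
  have heven : ∀ y n, f y (2 * n) = σ (List.ofFn (fun i : Fin (2 * n) => f y i)) := by
    intro y n
    rw [hf y (2 * n)]
    have hlen : (List.ofFn (fun i : Fin (2 * n) => f y i)).length = 2 * n := List.length_ofFn
    simp only [step, hlen]
    rw [if_pos (by omega)]
  have hodd : ∀ y m, f y (2 * m + 1) = tw y m := by
    intro y m
    rw [hf y (2 * m + 1)]
    have hlen : (List.ofFn (fun i : Fin (2 * m + 1) => f y i)).length = 2 * m + 1 :=
      List.length_ofFn
    simp only [step, hlen]
    rw [if_neg (by omega), show (2 * m + 1) / 2 = m by omega]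
  -- dependence on few values only
  have hdep : ∀ m y y', (∀ i, 2 * i + 3 ≤ m → y i = y' i) → f y m = f y' m := by
    intro m
    induction m using Nat.strong_induction_on with
    | _ m ih =>
      intro y y' hyy
      rcases Nat.even_or_odd' m with ⟨n, rfl | rfl⟩
      · rw [heven y n, heven y' n]
        congr 2
        funext i
        exact ih i i.2 y y' fun j hj => hyy j (by have := i.2; omega)
      · rw [hodd, hodd]
        funext j
        simp only [tw]
        by_cases h1 : n < j
        · rw [if_pos h1, if_pos h1]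
        · by_cases h2 : n = j
          · rw [if_neg h1, if_neg h1, if_pos h2, if_pos h2]
          · rw [if_neg h1, if_neg h1, if_neg h2, if_neg h2, hyy (n - j - 1) (by omega)]
  -- the data
  let d : Dat := fun j l => b (f (fun n => l.getD n false) (2 * l.length) j)
  have hd : ∀ y j m, b (f y (2 * m) j) = d j (List.ofFn (fun k : Fin m => y k)) := by
    intro y j m
    simp only [d, List.length_ofFn]
    rw [hdep (2 * m) y (fun n => (List.ofFn (fun i : Fin m => y i)).getD n false) ?_]
    intro i hi
    exact (getD_ofFn y m i false (by omega)).symm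
  have hd1 : ∀ y j, b (f y (2 * j + 2) j) = d j (List.ofFn (fun k : Fin (j + 1) => y k)) :=
    fun y j => hd y j (j + 1)
  have hd2 : ∀ y j i, b (f y (2 * (j + i) + 4) j) = P d j y i := by
    intro y j i
    rw [show 2 * (j + i) + 4 = 2 * (j + i + 2) by ring]
    exact hd y j (j + i + 2)
  obtain ⟨j, hj⟩ := hσ (f (Y d)) (heven (Y d))
  have hL : Lab (fun n => b (f (Y d) n j)) j := by
    refine ⟨?_, fun k hk => ?_⟩
    · simp only [hodd, tw]
      rw [if_neg (lt_irrefl _), if_pos trivial]; exact ht
    · simp only [hodd, tw]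
      rw [if_pos hk]; exact hu
  have e1 : (fun i => b (f (Y d) (2 * (j + i) + 4) j)) = P d j (Y d) :=
    funext fun i => hd2 (Y d) j i
  have e2 : (fun i => b (f (Y d) (2 * (j + i) + 3) j)) = Y d := by
    funext i
    have h3 : f (Y d) (2 * (j + i) + 3) = tw (Y d) (j + i + 1) := by
      rw [show 2 * (j + i) + 3 = 2 * (j + i + 1) + 1 by ring]
      exact hodd _ _
    rw [h3]
    simp only [tw]
    rw [if_neg (by omega), if_neg (by omega), hs, show j + i + 1 - j - 1 = i by omega]
  rcases hj with hno | ⟨n, hLn, hj⟩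
  · exact hno j hL
  obtain rfl : n = j := Lab.unique hLn hL
  rcases hj with ⟨hz, d', hd', hx, hy⟩ | ⟨hz, hno⟩
  · simp only at hx hy hz
    rw [e1] at hx
    rw [e2] at hy
    by_cases hdd : d = d'
    · rw [← hdd, ← hd1 (Y d) n, hz] at hd'
      exact absurd hd' (by simp)
    · exact hY d d' hdd ⟨⟨n, hy.symm⟩, ⟨n, hx⟩⟩
  · apply hno
    simp only at hz ⊢
    refine ⟨d, ?_, e2, e1⟩
    rw [← hd1 (Y d) n]
    exact hz

/-- **The theorem.** -/
theorem main (M : Type) (hM : Nontrivial M) : ∃ S : Set (ℕ → M),
    (∀ K : Type, Uncountable K → OneWins K M S ∧ OneWinsOnAsManyBoards K M S) ∧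
    (∀ K : Type, Nonempty K → Countable K → ¬ (OneWins K M S ∨ TwoWins K M S)) := by
  classical
  obtain ⟨t, u, htu⟩ := exists_pair_ne M
  let b : M → Bool := fun m => decide (m = t)
  have ht : b t = true := by simp [b]
  have hu : b u = false := by simp [b, htu.symm]
  obtain ⟨T, hT⟩ := exists_T
  refine ⟨PayM b T, fun K hK => ?_, fun K hK hc h => ?_⟩
  · have h := oneWinsOnAsManyBoards b t u ht hu T hK
    have : Nonempty K := inferInstance
    exact ⟨oneWins_of_asMany h, h⟩
  · rcases h with h | h
    · obtain ⟨i, hi⟩ := hc.exists_injective_nat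
      exact hT M b t u ht hu (oneWins_mono u i hi h)
    · exact not_twoWins b t u ht hu T hK h

end Pool.Agent.Y750.MB
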